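import Pool.Agent.Lib.MP_4fbe7c_an.UL.H17.Tps

/-!
EXI: the exact formula for the logarithmic part.
-/

set_option autoImplicit false

namespace Pool.Agent.Lib.MP_4fbe7c_an.UL.H17

open Pool.Agent.Lib.MP_4fbe7c_an.UL

/-- Summation by parts. -/
lemma abel (A c : ℕ → ℝ) (n : ℕ) :
    ∑ k ∈ Finset.range (n + 1), (A k - A (k + 1)) * c k =
      A 0 * c 0 - A (n + 1) * c n + ∑ k ∈ Finset.range n, A (k + 1) * (c (k + 1) - c k) := by
  induction n with
  | zero => simp; ring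
  | succ n ih =>
      rw [Finset.sum_range_succ, ih, Finset.sum_range_succ _ n]
      ring

/-- The local identity in the variables `e, e', α, x, x'`. -/
lemma local_id (e e' α x x' ζ r η : ℝ) (hr : 0 < r) (hr1 : r < 1) :
    4 * ((1 + η) * r / (1 + r)) * ((r * e' + α * x') * e' - (r * e + α * x) * e)
      - 4 * ζ * (η * r) * (e' - e) - 4 * ζ * ((r * e' + α * x') - (r * e + α * x)) =
    (1 + η) * (2 * ((r * e' + α * x') - ζ) ^ 2 - 2 * ((r * e + α * x) - ζ) ^ 2)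
      + 2 * ((1 + η) * (r ^ 2 / (1 - r ^ 2))) *
        ((e' - (r * e' + α * x')) ^ 2 - (e - (r * e + α * x)) ^ 2)
      + (2 * (1 + η) * (x ^ 2 - x' ^ 2) / (1 - r ^ 2) * α ^ 2 - 4 * ζ * η * (x - x') * α) := by
  have h1 : 1 - r ≠ 0 := by linarith
  have h2 : 1 + r ≠ 0 := by linarith
  have h3 : 1 - r ^ 2 = (1 - r) * (1 + r) := by ring
  rw [h3]
  field_simp
  ring

/-- The local identity. -/
lemma local_step {n : ℕ} {r S Z ZZ : ℕ → ℝ} (η : ℕ → ℝ) (ζ : ℝ) (h : Sta n r S Z ZZ) (j : ℕ)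
    (hj : j < n) (hr : 0 < r (j + 1)) (hr1 : r (j + 1) < 1) :
    4 * Lm r η (j + 1) * (bs S Z (j + 1) * bs S ZZ (j + 1) - bs S Z j * bs S ZZ j)
      - 4 * ζ * (η (j + 1) * r (j + 1)) * (bs S ZZ (j + 1) - bs S ZZ j)
      - 4 * ζ * (bs S Z (j + 1) - bs S Z j) =
    (1 + η (j + 1)) * (2 * (bs S Z (j + 1) - ζ) ^ 2 - 2 * (bs S Z j - ζ) ^ 2)
      + 2 * ((1 + η (j + 1)) * hh (r (j + 1))) *
        ((bs S ZZ (j + 1) - bs S Z (j + 1)) ^ 2 - (bs S ZZ j - bs S Z j) ^ 2)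
      + lev r η S Z ZZ ζ j := by
  have hb : bs S Z j = r (j + 1) * bs S ZZ j + al r Z ZZ j * (1 / S j) := by
    unfold bs al
    ring
  have hb' : bs S Z (j + 1) = r (j + 1) * bs S ZZ (j + 1) + al r Z ZZ j * (1 / S (j + 1)) := by
    have := h.step j hj
    unfold bs al
    linear_combination (-(1 / S (j + 1))) * this
  have hdy : dy S j = (1 / S j) ^ 2 - (1 / S (j + 1)) ^ 2 := by
    unfold dy
    rw [one_div_pow, one_div_pow]
  unfold lev Lm
  rw [hdy]
  unfold dx hh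
  rw [hb, hb']
  exact local_id _ _ _ _ _ _ _ _ hr hr1

/-- EXI. -/
theorem exi : ExiStatement := by
  intro n r η S Z ZZ ζ h hr0 hrn hη hrp hr1
  have hS := S_pos h
  have hZ0 : bs S ZZ 0 = bs S Z 0 := by
    unfold bs
    rw [h.Z0]
  have hZn : bs S Z n = Z n := by
    unfold bs
    rw [h.Sn, div_one]
  -- partial sums
  have key : ∀ N, N ≤ n →
      4 * (bs S Z 0 - ζ) ^ 2 + ∑ j ∈ Finset.range N,
        (4 * Lm r η (j + 1) * (bs S Z (j + 1) * bs S ZZ (j + 1) - bs S Z j * bs S ZZ j)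
          - 4 * ζ * (η (j + 1) * r (j + 1)) * (bs S ZZ (j + 1) - bs S ZZ j)
          - 4 * ζ * (bs S Z (j + 1) - bs S Z j)) =
      2 * (1 + η N) * (bs S Z N - ζ) ^ 2
      + 2 * (∑ k ∈ Finset.range N, (η k - η (k + 1)) * (bs S Z k - ζ) ^ 2)
      + 2 * (∑ j ∈ Finset.range N, ((1 + η (j + 1)) * hh (r (j + 1)) -
          (1 + η (j + 2)) * hh (r (j + 2))) * (bs S ZZ (j + 1) - bs S Z (j + 1)) ^ 2)
      + 2 * ((1 + η (N + 1)) * hh (r (N + 1))) * (bs S ZZ N - bs S Z N) ^ 2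
      + ∑ j ∈ Finset.range N, lev r η S Z ZZ ζ j := by
    intro N
    induction N with
    | zero =>
        intro _
        simp only [Finset.range_zero, Finset.sum_empty, add_zero, mul_zero]
        rw [hZ0, hη]
        ring
    | succ N ih =>
        intro hN
        have ih' := ih (by omega)
        have hl := local_step η ζ h N (by omega) (hrp (N + 1) hN) (hr1 (N + 1) (by omega) hN)
        simp only [Finset.sum_range_succ]
        linear_combination ih' + hl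
  have h1 := key n le_rfl
  have hh0 : hh (r (n + 1)) = 0 := by
    unfold hh
    rw [hrn]
    norm_num
  rw [hh0, mul_zero, mul_zero, zero_mul, add_zero, hZn] at h1
  rw [← h1]
  -- the logarithmic part by summation by parts
  have ha1 := abel (fun k => η k * r k) (fun k => bs S ZZ k) n
  have ha2 := abel (fun k => Lm r η k) (fun k => bs S Z k * bs S ZZ k) n
  beta_reduce at ha1 ha2
  have hL0 : Lm r η 0 = 1 := by
    unfold Lm
    rw [hr0, hη]
    norm_num
  have hLn : Lm r η (n + 1) = 0 := by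
    unfold Lm
    rw [hrn]
    norm_num
  rw [hL0, hLn] at ha2
  rw [hr0, hη, hrn] at ha1
  unfold Qlog
  rw [ha1, ha2, hZ0]
  have hsum : ∑ j ∈ Finset.range n, (bs S Z (j + 1) - bs S Z j) = bs S Z n - bs S Z 0 :=
    Finset.sum_range_sub _ n
  rw [hZn] at hsum
  have hsplit : ∑ j ∈ Finset.range n,
        (4 * Lm r η (j + 1) * (bs S Z (j + 1) * bs S ZZ (j + 1) - bs S Z j * bs S ZZ j)
          - 4 * ζ * (η (j + 1) * r (j + 1)) * (bs S ZZ (j + 1) - bs S ZZ j)
          - 4 * ζ * (bs S Z (j + 1) - bs S Z j)) =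
      4 * (∑ j ∈ Finset.range n,
        Lm r η (j + 1) * (bs S Z (j + 1) * bs S ZZ (j + 1) - bs S Z j * bs S ZZ j))
      - 4 * ζ * (∑ j ∈ Finset.range n, η (j + 1) * r (j + 1) * (bs S ZZ (j + 1) - bs S ZZ j))
      - 4 * ζ * (Z n - bs S Z 0) := by
    rw [← hsum, Finset.mul_sum, Finset.mul_sum, Finset.mul_sum, ← Finset.sum_sub_distrib,
      ← Finset.sum_sub_distrib]
    refine Finset.sum_congr rfl fun j _ => ?_
    ring
  rw [hsplit]
  ring

end Pool.Agent.Lib.MP_4fbe7c_an.UL.H17
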