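import Pool.Agent.Lib.MP_4fbe7c_an.UL.Iface

/-!
GAP: the gap inequality for the storage function.
-/

set_option autoImplicit false

namespace Pool.Agent.Lib.MP_4fbe7c_an.UL.H17

open Pool.Agent.Lib.MP_4fbe7c_an.UL

/-- The inner function is decreasing and 1-Lipschitz. -/
lemma inner_le (M c c' : ℝ) :
    max 0 (M - max 0 c) ≤ max 0 (M - max 0 c') + max 0 (c' - c) := by
  have h1 : max 0 c' ≤ max 0 c + max 0 (c' - c) := by
    rcases le_total 0 c with h | h <;> rcases le_total 0 c' with h' | h' <;>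
      rcases le_total 0 (c' - c) with h'' | h'' <;> simp [h, h', h''] <;> linarith
  have h2 : 0 ≤ max 0 (c' - c) := le_max_left _ _
  refine max_le (add_nonneg (le_max_left _ _) h2) ?_
  have h3 : M - max 0 c' ≤ max 0 (M - max 0 c') := le_max_right _ _
  linarith

lemma gap_core (M b δ p p' : ℝ) (hp : 0 < p) (hpp : p ≤ p') :
    p * (max 0 (M - max 0 (b - δ / p))) ^ 2 ≤
      p' * (max 0 (M - max 0 (b - δ / p'))) ^ 2 + δ ^ 2 * (1 / p - 1 / p') := by
  have hp' : 0 < p' := lt_of_lt_of_le hp hpp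
  have hA : 0 ≤ 1 / p - 1 / p' := sub_nonneg.2 (one_div_le_one_div_of_le hp hpp)
  set v := max 0 (M - max 0 (b - δ / p)) with hv
  set v' := max 0 (M - max 0 (b - δ / p')) with hv'
  have hv0 : 0 ≤ v := le_max_left _ _
  have hv0' : 0 ≤ v' := le_max_left _ _
  have h := inner_le M (b - δ / p) (b - δ / p')
  rw [← hv, ← hv'] at h
  have hd : (b - δ / p') - (b - δ / p) = δ * (1 / p - 1 / p') := by ring
  rw [hd] at h
  rcases le_total δ 0 with hδ | hδ
  · have h0 : max 0 (δ * (1 / p - 1 / p')) = 0 :=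
      max_eq_left (mul_nonpos_of_nonpos_of_nonneg hδ hA)
    rw [h0, add_zero] at h
    have h1 : v ^ 2 ≤ v' ^ 2 := pow_le_pow_left₀ hv0 h 2
    have h2 : p * v ^ 2 ≤ p' * v' ^ 2 := mul_le_mul hpp h1 (sq_nonneg _) hp'.le
    have h3 : 0 ≤ δ ^ 2 * (1 / p - 1 / p') := mul_nonneg (sq_nonneg _) hA
    linarith
  · have h0 : max 0 (δ * (1 / p - 1 / p')) = δ * (1 / p - 1 / p') :=
      max_eq_right (mul_nonneg hδ hA)
    rw [h0] at h
    have h1 : v ^ 2 ≤ (v' + δ * (1 / p - 1 / p')) ^ 2 := pow_le_pow_left₀ hv0 h 2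
    have h2 : p * v ^ 2 ≤ p * (v' + δ * (1 / p - 1 / p')) ^ 2 :=
      mul_le_mul_of_nonneg_left h1 hp.le
    have h3 : p * (v' + δ * (1 / p - 1 / p')) ^ 2 =
        p' * v' ^ 2 + δ ^ 2 * (1 / p - 1 / p') - (p' - p) * (v' - δ / p') ^ 2 := by
      field_simp
      ring
    have h4 : 0 ≤ (p' - p) * (v' - δ / p') ^ 2 := mul_nonneg (sub_nonneg.2 hpp) (sq_nonneg _)
    linarith

lemma gap_num (p p' : ℝ) (hp : 0 < p) (hpp : p ≤ p') (h2 : p' ≤ 2) :
    1 / 2 * (1 / p - 1 / p') ≤ 4 / 3 * (1 / (p * (p + 2)) - 1 / (p' * (p' + 2))) := by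
  have hp' : 0 < p' := lt_of_lt_of_le hp hpp
  have e : 4 / 3 * (1 / (p * (p + 2)) - 1 / (p' * (p' + 2))) - 1 / 2 * (1 / p - 1 / p') =
      (p' - p) * (4 / 3 + 2 / 3 * (p + p') - p * p') / (2 * (p * p' * (p + 2) * (p' + 2))) := by
    field_simp
    ring
  have h3 : 0 ≤ (p' - p) * (4 / 3 + 2 / 3 * (p + p') - p * p') := by
    refine mul_nonneg (sub_nonneg.2 hpp) ?_
    nlinarith
  have h4 : 0 ≤ (p' - p) * (4 / 3 + 2 / 3 * (p + p') - p * p') /
      (2 * (p * p' * (p + 2) * (p' + 2))) := by positivity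
  linarith

/-- GAP. -/
theorem gap : GapStatement := by
  intro M b δ r r' _ h3 hrr hr1
  have hr' : 0 < r' := by linarith
  have hr : 0 < r := by linarith
  have hr1' : r' < 1 := by linarith
  have hp : 0 < (1 - r) / r := div_pos (by linarith) hr
  have hpp : (1 - r) / r ≤ (1 - r') / r' := by
    rw [div_le_div_iff₀ hr hr']
    nlinarith
  have hp2 : (1 - r') / r' ≤ 2 := by
    rw [div_le_iff₀ hr']
    linarith
  have key : ∀ s : ℝ, 0 < s → s < 1 → δ * s / (1 - s) = δ / ((1 - s) / s) := by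
    intro s _ _
    rw [div_div_eq_mul_div]
  have khh : ∀ s : ℝ, 0 < s → s < 1 → hh s = 1 / ((1 - s) / s * ((1 - s) / s + 2)) := by
    intro s hs hs1
    have h1 : 1 - s ≠ 0 := by linarith
    have h2 : 1 - s ^ 2 ≠ 0 := by nlinarith
    have h3 : 1 + s ≠ 0 := by linarith
    unfold hh
    have h4 : (1 - s) / s * ((1 - s) / s + 2) = (1 - s ^ 2) / s ^ 2 := by
      field_simp
      ring
    rw [h4, one_div_div]
  have h1 := gap_core M b δ _ _ hp hpp
  have h2 := gap_num _ _ hp hpp hp2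
  unfold Vst
  rw [key r hr hr1, key r' hr' hr1', khh r hr hr1, khh r' hr' hr1']
  have h4 := mul_le_mul_of_nonneg_right h2 (sq_nonneg δ)
  nlinarith [h1, h4]

end Pool.Agent.Lib.MP_4fbe7c_an.UL.H17
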