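import Pool.Agent.Lib.MP_4fbe7c_an.UL.Iface

/-!
LEVEL: the level inequality for the storage function.
-/

set_option autoImplicit false

namespace Pool.Agent.Lib.MP_4fbe7c_an.UL.H17

open Pool.Agent.Lib.MP_4fbe7c_an.UL

/-- LEVEL. -/
theorem level : LevelStatement := by
  intro ζ g t r η hζ ht ht1 hr3 hr1 hη hη1
  have hr : 0 < r := by linarith
  have h1r : 0 < 1 - r := by linarith
  have h1r' : 0 < 1 + r := by linarith
  have h1r2 : 0 < 1 - r ^ 2 := by nlinarith
  rcases le_total g 0 with hg | hg
  · have e1 : max 0 g = 0 := max_eq_left hg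
    have e2 : max 0 (t * g) = 0 := max_eq_left (mul_nonpos_of_nonneg_of_nonpos ht hg)
    unfold Vst
    rw [e1, e2]
    have a1 : 0 ≤ 2 * (1 + η) * (1 - t ^ 2) / (1 - r ^ 2) * ((1 - r) * g) ^ 2 := by
      have : 0 ≤ 1 - t ^ 2 := by nlinarith
      positivity
    have a2 : 4 * ζ * η * (1 - t) * ((1 - r) * g) ≤ 0 := by
      have b1 : 0 ≤ 4 * ζ * η * (1 - t) := by
        have : 0 ≤ 1 - t := by linarith
        positivity
      have b2 : (1 - r) * g ≤ 0 := mul_nonpos_of_nonneg_of_nonpos h1r.le hg
      exact mul_nonpos_of_nonneg_of_nonpos b1 b2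
    linarith
  · have e1 : max 0 g = g := max_eq_right hg
    have e2 : max 0 (t * g) = t * g := max_eq_right (mul_nonneg ht hg)
    unfold Vst
    rw [e1, e2]
    set M := 51 / 1250 * ζ with hM
    set a := max 0 (M - t * g) with ha
    set b := max 0 (M - g) with hb
    have hb0 : 0 ≤ b := le_max_left _ _
    have hbM : M - g ≤ b := le_max_right _ _
    have ha0 : 0 ≤ a := le_max_left _ _
    have haM : M - t * g ≤ a := le_max_right _ _
    have h1t : 0 ≤ 1 - t := by linarith
    -- convexity
    have hc : 2 * ((1 - t) * g * b) ≤ a ^ 2 - b ^ 2 := by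
      rcases le_or_gt (M - g) 0 with h | h
      · have : b = 0 := max_eq_left h
        rw [this]
        nlinarith [sq_nonneg a]
      · have hbe : b = M - g := max_eq_right h.le
        have h5 : (1 - t) * g ≤ a - b := by rw [hbe]; linarith
        have h6 : 0 ≤ (1 - t) * g := mul_nonneg h1t hg
        nlinarith [sq_nonneg (a - b), mul_nonneg hb0 (sub_nonneg.2 h5)]
    have hp : 0 < (1 - r) / r := div_pos h1r hr
    have hc' := mul_le_mul_of_nonneg_left hc hp.le
    -- the main estimate
    have hmain : 4 * ζ * η ≤ b / r + 2 * (1 + η) * (1 + t) * g / (1 + r) := by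
      have i1 : b ≤ b / r := by
        rw [le_div_iff₀ hr]
        nlinarith
      have i2 : g ≤ 2 * (1 + η) * (1 + t) * g / (1 + r) := by
        rw [le_div_iff₀ h1r']
        have j1 : 1 + r ≤ 2 * (1 + η) * (1 + t) := by
          nlinarith [mul_nonneg hη ht]
        nlinarith [mul_le_mul_of_nonneg_left j1 hg]
      have i3 : 4 * ζ * η ≤ M := by
        rw [hM]
        nlinarith
      linarith
    have hpos : 0 ≤ (1 - t) * (1 - r) * g := by positivity
    have hmm := mul_le_mul_of_nonneg_left hmain hpos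
    have e3 : (1 - t) * (1 - r) * g * (b / r + 2 * (1 + η) * (1 + t) * g / (1 + r)) =
        (1 - r) / r * ((1 - t) * g * b) +
          2 * (1 + η) * (1 - t ^ 2) / (1 - r ^ 2) * ((1 - r) * g) ^ 2 := by
      have : 1 - r ^ 2 = (1 - r) * (1 + r) := by ring
      rw [this]
      field_simp
      ring
    rw [e3] at hmm
    have e4 : (1 - t) * (1 - r) * g * (4 * ζ * η) = 4 * ζ * η * (1 - t) * ((1 - r) * g) := by ring
    rw [e4] at hmm
    nlinarith [hmm, hc']

end Pool.Agent.Lib.MP_4fbe7c_an.UL.H17
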