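import Pool.Agent.Lib.MP_4fbe7c_an.UL.Iface

/-!
TPS: summation by parts for `T`.
-/

set_option autoImplicit false

namespace Pool.Agent.Lib.MP_4fbe7c_an.UL.H17

open Pool.Agent.Lib.MP_4fbe7c_an.UL

lemma S_pos {n : ℕ} {r S Z ZZ : ℕ → ℝ} (h : Sta n r S Z ZZ) : ∀ k, k ≤ n → 0 < S k := by
  intro k
  induction k with
  | zero => intro _; exact h.S0
  | succ k ih =>
      intro hk
      exact lt_of_lt_of_le (ih (by omega)) (h.mono k (by omega))

lemma al_step {n : ℕ} {r S Z ZZ : ℕ → ℝ} (h : Sta n r S Z ZZ) (k : ℕ) (hk : k < n) :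
    al r Z ZZ (k + 1) - al r Z ZZ k = nu r (k + 1) * ZZ (k + 1) := by
  have := h.step k hk
  unfold al nu
  linear_combination -this

/-- TPS. -/
theorem tps : TpsStatement := by
  intro n c r S Z ZZ hcn hr h
  have hS := S_pos h
  have key : ∀ N, c ≤ N → N ≤ n →
      ∑ j ∈ Finset.Ico c N, nu r (j + 1) * ((1 / S (j + 1) - S c * (1 / S (j + 1) ^ 2)) * ZZ (j + 1)) =
        al r Z ZZ N * (1 / S N - S c * (1 / S N ^ 2)) +
          ∑ l ∈ Finset.Ico c N, (dx S l - S c * dy S l) * al r Z ZZ l := by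
    intro N hN
    induction N, hN using Nat.le_induction with
    | base =>
        intro hn
        have hc : S c ≠ 0 := (hS c hn).ne'
        simp only [Finset.Ico_self, Finset.sum_empty, add_zero]
        have : 1 / S c - S c * (1 / S c ^ 2) = 0 := by
          field_simp
          ring
        rw [this, mul_zero]
    | succ N hN ih =>
        intro hn
        rw [Finset.sum_Ico_succ_top hN, Finset.sum_Ico_succ_top hN, ih (by omega)]
        have h1 := al_step h N (by omega)
        unfold dx dy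
        linear_combination (-(1 / S (N + 1) - S c * (1 / S (N + 1) ^ 2))) * h1
  have h2 := key n hcn le_rfl
  rw [h.Sn] at h2
  have h3 : al r Z ZZ n = Z n := by
    unfold al
    rw [hr]
    ring
  rw [h3] at h2
  have h4 : Tf n c r S ZZ =
      ∑ j ∈ Finset.Ico c n, nu r (j + 1) * ((1 / S (j + 1) - S c * (1 / S (j + 1) ^ 2)) * ZZ (j + 1))
        - bs S ZZ c * ∑ j ∈ Finset.Ico c n, nu r (j + 1) * (1 - S c / S (j + 1)) := by
    unfold Tf
    rw [Finset.mul_sum, ← Finset.sum_sub_distrib]
    refine Finset.sum_congr rfl fun j _ => ?_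
    unfold bs
    ring
  rw [h4, h2]
  ring

end Pool.Agent.Lib.MP_4fbe7c_an.UL.H17
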