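import Pool.Agent.Lib.MP_4fbe7c_an.UL.H17.Tps

/-!
CLU: the cluster of the rates `d_k ≤ 3`.
-/

set_option autoImplicit false

namespace Pool.Agent.Lib.MP_4fbe7c_an.UL.H17

open Pool.Agent.Lib.MP_4fbe7c_an.UL

lemma Vst_nonneg (M p g : ℝ) (hp : 0 ≤ p) : 0 ≤ Vst M p g := by
  unfold Vst
  positivity

/-- One level step: LEVEL in the variables of the state. -/
lemma lev_step (hl : LevelStatement) {n : ℕ} {r S Z ZZ : ℕ → ℝ} (η : ℕ → ℝ) (ζ : ℝ)
    (h : Sta n r S Z ZZ) (hζ : 0 ≤ ζ) (j : ℕ) (hj : j < n) (hr3 : 1 / 3 ≤ r (j + 1))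
    (hr1 : r (j + 1) < 1) (hη : 0 ≤ η (j + 1)) (hη1 : η (j + 1) ≤ 51 / 5000) :
    Vst (51 / 1250 * ζ) ((1 - r (j + 1)) / r (j + 1))
        (bs S Z j - (bs S ZZ j - bs S Z j) * r (j + 1) / (1 - r (j + 1))) ≤
      Vst (51 / 1250 * ζ) ((1 - r (j + 1)) / r (j + 1))
        (bs S Z (j + 1) - (bs S ZZ (j + 1) - bs S Z (j + 1)) * r (j + 1) / (1 - r (j + 1)))
      + lev r η S Z ZZ ζ j := by
  have hS := S_pos h
  have hs : 0 < S j := hS j hj.le
  have hs' : 0 < S (j + 1) := hS (j + 1) hj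
  have hm := h.mono j hj
  have hr : 1 - r (j + 1) ≠ 0 := by linarith
  set s := r (j + 1) with hs_def
  have hg : bs S Z j - (bs S ZZ j - bs S Z j) * s / (1 - s) =
      al r Z ZZ j / (S j * (1 - s)) := by
    unfold bs al
    rw [← hs_def]
    field_simp
    ring
  have hg' : bs S Z (j + 1) - (bs S ZZ (j + 1) - bs S Z (j + 1)) * s / (1 - s) =
      S j / S (j + 1) * (al r Z ZZ j / (S j * (1 - s))) := by
    have hst := h.step j hj
    rw [← hs_def] at hst
    have e1 : al r Z ZZ j = Z (j + 1) - s * ZZ (j + 1) := by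
      unfold al
      rw [← hs_def]
      linear_combination hst
    rw [e1]
    unfold bs
    field_simp
    ring
  have ht : S j / S (j + 1) ≤ 1 := (div_le_one hs').2 hm
  have h1 := hl ζ (al r Z ZZ j / (S j * (1 - s))) (S j / S (j + 1)) s (η (j + 1)) hζ
    (by positivity) ht hr3 hr1 hη hη1
  rw [hg, hg']
  have h2 : lev r η S Z ZZ ζ j =
      2 * (1 + η (j + 1)) * (1 - (S j / S (j + 1)) ^ 2) / (1 - s ^ 2) *
        ((1 - s) * (al r Z ZZ j / (S j * (1 - s)))) ^ 2
      - 4 * ζ * η (j + 1) * (1 - S j / S (j + 1)) *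
        ((1 - s) * (al r Z ZZ j / (S j * (1 - s)))) := by
    have e2 : (1 - s) * (al r Z ZZ j / (S j * (1 - s))) = al r Z ZZ j / S j := by
      field_simp
    rw [e2]
    unfold lev dx dy
    rw [← hs_def]
    field_simp
  rw [h2]
  linarith

/-- CLU. -/
theorem clu (hg : GapStatement) (hl : LevelStatement) : CluStatement := by
  intro n c lam r η S Z ZZ ζ hP h hζ hc
  have hR := hP.rts
  have hM : 0 ≤ 51 / 1250 * ζ := by positivity
  have hcn := hR.cn
  -- all rates `r_k`, `k ≥ 1`, are smaller than one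
  have hlt : ∀ k, 1 ≤ k → k ≤ n → r k < 1 := by
    intro k hk
    induction k, hk using Nat.le_induction with
    | base => intro _; exact hR.r1
    | succ k hk ih =>
        intro hkn
        exact lt_of_le_of_lt (hR.ranti k (by omega)) (ih (by omega))
  have key : ∀ m, m < c →
      -Vst (51 / 1250 * ζ) ((1 - r (m + 1)) / r (m + 1))
        (bs S Z (m + 1) - (bs S ZZ (m + 1) - bs S Z (m + 1)) * r (m + 1) / (1 - r (m + 1))) ≤
      (∑ j ∈ Finset.range (m + 1), lev r η S Z ZZ ζ j)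
      + 4 / 3 * (∑ j ∈ Finset.range m, Gs r (j + 1) * (bs S ZZ (j + 1) - bs S Z (j + 1)) ^ 2) := by
    intro m
    induction m with
    | zero =>
        intro _
        have hη := hP.etab 1 le_rfl (by omega)
        have h1 := lev_step hl η ζ h hζ 0 (by omega) (hR.rc 1 hc) hR.r1 hη.1 hη.2
        have hp : 0 ≤ (1 - r (0 + 1)) / r (0 + 1) :=
          div_nonneg (by linarith [hR.r1]) (by linarith [hR.rc 1 hc])
        have h2 := Vst_nonneg (51 / 1250 * ζ) ((1 - r (0 + 1)) / r (0 + 1))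
          (bs S Z 0 - (bs S ZZ 0 - bs S Z 0) * r (0 + 1) / (1 - r (0 + 1))) hp
        simp only [Finset.sum_range_succ, Finset.range_zero, Finset.sum_empty, zero_add, mul_zero,
          add_zero]
        simp only [zero_add] at h1 h2
        linarith
    | succ m ih =>
        intro hm
        have ih' := ih (by omega)
        have hη := hP.etab (m + 2) (by omega) (by omega)
        have hr3 := hR.rc (m + 2) (by omega)
        have hr1 := hlt (m + 2) (by omega) (by omega)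
        have hr1' := hlt (m + 1) (by omega) (by omega)
        have hle := hR.ranti (m + 1) (by omega)
        have h1 := lev_step hl η ζ h hζ (m + 1) (by omega) hr3 hr1 hη.1 hη.2
        have h2 := hg (51 / 1250 * ζ) (bs S Z (m + 1)) (bs S ZZ (m + 1) - bs S Z (m + 1))
          (r (m + 1)) (r (m + 2)) hM hr3 hle hr1'
        rw [Finset.sum_range_succ _ (m + 1), Finset.sum_range_succ
          (fun j => Gs r (j + 1) * (bs S ZZ (j + 1) - bs S Z (j + 1)) ^ 2) m]
        have h3 : Gs r (m + 1) = hh (r (m + 1)) - hh (r (m + 2)) := rfl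
        rw [h3]
        linarith
  obtain ⟨m, rfl⟩ : ∃ m, c = m + 1 := ⟨c - 1, by omega⟩
  have h1 := key m (Nat.lt_succ_self m)
  have h2 := hg (51 / 1250 * ζ) (bs S Z (m + 1)) (bs S ZZ (m + 1) - bs S Z (m + 1))
    (r (m + 1)) (1 / 3) hM le_rfl (hR.rc (m + 1) le_rfl) (hlt (m + 1) (by omega) hcn)
  have h3 : hh (1 / 3) = 1 / 8 := by
    unfold hh
    norm_num
  have h4 : Vst (51 / 1250 * ζ) ((1 - 1 / 3) / (1 / 3))
      (bs S Z (m + 1) - (bs S ZZ (m + 1) - bs S Z (m + 1)) * (1 / 3) / (1 - 1 / 3)) =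
      (max 0 (51 / 1250 * ζ - max 0 (bs S Z (m + 1) -
        (bs S ZZ (m + 1) - bs S Z (m + 1)) / 2))) ^ 2 := by
    unfold Vst
    have e1 : (bs S ZZ (m + 1) - bs S Z (m + 1)) * (1 / 3) / (1 - 1 / 3) =
        (bs S ZZ (m + 1) - bs S Z (m + 1)) / 2 := by ring
    rw [e1]
    norm_num
  rw [h3, h4] at h2
  rw [Nat.add_sub_cancel]
  linarith

end Pool.Agent.Lib.MP_4fbe7c_an.UL.H17
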